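import Pool.Agent.Lib.MP_3615e3_an.Main

open MeasureTheory Filter Topology Set
open scoped MatrixGroups CompactlySupported
open Pool.Agent.Lib.MP_3615e3_an

namespace Pool.Agent.Results.MP_3615e3_an.BaireDichotomy

theorem result {X : Type*} [TopologicalSpace X] [T2Space X] [LocallyCompactSpace X]
    [SecondCountableTopology X] [MeasurableSpace X] [BorelSpace X]
    [MulAction SL(2, ℝ) X] [ContinuousSMul SL(2, ℝ) X]
    (μ : Measure X) [IsProbabilityMeasure μ] [ErgodicSMul SL(2, ℝ) X μ] [μ.IsOpenPosMeasure]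
    (S : Set X) (hS : Dense S) :
    List.TFAE
      [∀ x : X, Accumulates μ x → Equidistributes μ x,
       {x : X | Equidistributes μ x} ∈ residual X,
       ¬ IsMeagre {x : X | Equidistributes μ x},
       ∀ f : C_c(X, ℝ), ∀ ε : ℝ, 0 < ε → ∃ W : Set X, IsOpen W ∧ W.Nonempty ∧ ∃ T : ℝ,
         ∀ y ∈ W ∩ S, ∀ t : ℝ, T ≤ t → |arc y t f - ∫ z, f z ∂μ| ≤ ε,
       ∀ f : C_c(X, ℝ), ∀ ε : ℝ, 0 < ε → ∃ ψ : C_c(X, ℝ), ∃ δ : ℝ, 0 < δ ∧ ∃ T : ℝ,
         ∀ (x : X) (τ t : ℝ), T ≤ τ → τ + T ≤ t → (∫ z, ψ z ∂μ) - δ < arc x τ ψ →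
           |arc x t f - ∫ z, f z ∂μ| ≤ ε] := by
  tfae_have 1 → 2 := fun h => mem_of_superset (acc_residual μ) fun x hx => h x hx
  tfae_have 2 → 3 := by
    intro h hm
    have hne : Nonempty X := nonempty_of_isProbabilityMeasure μ
    have h1 := inter_mem h hm
    rw [inter_compl_self] at h1
    obtain ⟨x, hx⟩ := (dense_of_mem_residual h1).nonempty
    exact hx
  tfae_have 3 → 4 := by
    intro h f ε hε
    obtain ⟨W, hW, hn, T, hT⟩ := local_of_not_meagre μ h f hε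
    exact ⟨W, hW, hn, T, fun y hy => hT y hy.1⟩
  tfae_have 4 → 5 := by
    intro h f ε hε
    obtain ⟨W, hW, hn, T, hT⟩ := h f (ε / 4) (by linarith)
    obtain ⟨ψ, -, -, M, hM, hMψ, T', hT'⟩ :=
      stable_of_local μ f hε hW hn (local_of_dense hS (map_continuous f) hW hT)
    refine ⟨ψ, ε / 4 / (M + 1), by positivity, T', fun x τ t hτ ht hψ => ?_⟩
    refine (hT' x τ t hτ ht).trans ?_
    have h3 : M * (ε / 4 / (M + 1)) ≤ ε / 4 := by
      rw [← mul_div_assoc, div_le_iff₀ (by linarith)]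
      nlinarith
    have h4 : M * (1 - arc x τ ψ) ≤ M * (1 - ∫ y, ψ y ∂μ + ε / 4 / (M + 1)) :=
      mul_le_mul_of_nonneg_left (by linarith) hM
    rw [mul_add] at h4
    linarith
  tfae_have 5 → 1 := by
    intro h x hx f
    rw [Metric.tendsto_atTop]
    intro ε hε
    obtain ⟨ψ, δ, hδ, T, hT⟩ := h f (ε / 2) (by linarith)
    obtain ⟨τ, hτ, hψ⟩ := hx ψ δ hδ T
    exact ⟨τ + T, fun t ht => (hT x τ t hτ ht hψ).trans_lt (by linarith)⟩
  tfae_finish

end Pool.Agent.Results.MP_3615e3_an.BaireDichotomy
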