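import Pool.Agent.Lib.MP_3615e3_an.Bar7
import Pool.Agent.Lib.MP_3615e3_an.Ex3

open MeasureTheory Filter Topology Set
open scoped MatrixGroups CompactlySupported
open Pool.Agent.Lib.MP_3615e3_an Pool.Agent.Lib.MP_3615e3_an.Bar

namespace Pool.Agent.Results.MP_3615e3_an.BarrierCompact

theorem result :
    ∃ (X : Space) (μ : Measure X.X), CompactSpace X.X ∧ IsProbabilityMeasure μ ∧
      ErgodicSMul SL(2, ℝ) X.X μ ∧ μ.IsOpenPosMeasure ∧
      (∀ m : Measure X.X, IsProbabilityMeasure m →
        (∀ t : ℝ, MeasurePreserving (fun x : X.X => geo t • x) m m) →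
        (∀ s : ℝ, MeasurePreserving (fun x : X.X => hor s • x) m m) → m = μ) ∧
      (∀ x, Dense (MulAction.orbit SL(2, ℝ) x) ∧ Cesaro μ x) ∧
      IsMeagre {x | Equidistributes μ x} := by
  obtain ⟨S, μ, _, _, _, _, h1, h2, h3⟩ := exists_base
  obtain ⟨s⟩ : Nonempty S.X := nonempty_of_isProbabilityMeasure μ
  obtain ⟨X, π, ι, a1, a2, a3, a4, -, a6, -, a8, a9, -, -, a11⟩ := exists_ext S μ s
    (fun g hg => Or.inl (h1 s g hg)) (h2 s) (cesaro_of_unique μ h3 s)
  haveI : IsProbabilityMeasure (μ.map ι) := Measure.isProbabilityMeasure_map a2.aemeasurable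
  haveI : CompactSpace X.X := ⟨a1.isCompact_preimage isCompact_univ⟩
  have hπ : Measurable π := a1.continuous.measurable
  have key : ∀ (m : Measure X.X) (g : SL(2, ℝ)), MeasurePreserving (fun x : X.X => g • x) m m →
      MeasurePreserving (fun y : S.X => g • y) (m.map π) (m.map π) := by
    intro m g hm
    refine ⟨(continuous_const_smul _).measurable, ?_⟩
    conv_rhs => rw [← hm.map_eq]
    rw [Measure.map_map (continuous_const_smul _).measurable hπ, Measure.map_map hπ hm.measurable]
    exact congrArg (fun φ => m.map φ) (funext fun y => (a4 _ y).symm)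
  have hu : ∀ m : Measure X.X, IsProbabilityMeasure m →
      (∀ t : ℝ, MeasurePreserving (fun x : X.X => geo t • x) m m) →
      (∀ s : ℝ, MeasurePreserving (fun x : X.X => hor s • x) m m) → m = μ.map ι := by
    intro m hm b1 b2
    rw [← a6 m hm b1, h3 (m.map π) (Measure.isProbabilityMeasure_map hπ.aemeasurable)
      (fun t => key m _ (b1 t)) fun r => key m _ (b2 r)]
  have hc := cesaro_of_unique (μ.map ι) hu
  refine ⟨X, μ.map ι, inferInstance, inferInstance, a8, a9, hu, fun x => ⟨?_, hc x⟩, a11⟩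
  refine dense_iff_inter_open.2 fun U hU hne => ?_
  obtain ⟨g, hg⟩ := dense_orbit (μ.map ι) (acc_of (hc x)) hU hne
  exact ⟨_, hg, g, rfl⟩

end Pool.Agent.Results.MP_3615e3_an.BarrierCompact
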