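import Pool.Agent.Lib.MP_3615e3_an.Bar7

open MeasureTheory Filter Topology Set
open scoped MatrixGroups CompactlySupported
open Pool.Agent.Lib.MP_3615e3_an

namespace Pool.Agent.Results.MP_3615e3_an.BarrierLift

theorem result (S : Space) (μ : Measure S.X) [IsProbabilityMeasure μ]
    [ErgodicSMul SL(2, ℝ) S.X μ] [μ.IsOpenPosMeasure] (s : S.X)
    (h1 : ∀ g : SL(2, ℝ), g • s = s → g = 1 ∨ g = -1)
    (h2 : μ (MulAction.orbit SL(2, ℝ) s) = 0) (h3 : Cesaro μ s) :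
    ∃ (X : Space) (π : X.X → S.X) (ι : S.X → X.X), IsProperMap π ∧ Measurable ι ∧
      (∀ y, π (ι y) = y) ∧ (∀ (g : SL(2, ℝ)) x, π (g • x) = g • π x) ∧
      (∀ (g : SL(2, ℝ)) y, ι (g • y) = g • ι y) ∧
      (∀ m : Measure X.X, IsProbabilityMeasure m →
        (∀ t : ℝ, MeasurePreserving (fun x : X.X => geo t • x) m m) → (m.map π).map ι = m) ∧
      (∀ m : Measure S.X, IsProbabilityMeasure m →
        (∀ t : ℝ, MeasurePreserving (fun y : S.X => geo t • y) m m) →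
        ∀ x, Cesaro m (π x) → Cesaro (m.map ι) x) ∧
      ErgodicSMul SL(2, ℝ) X.X (μ.map ι) ∧ (μ.map ι).IsOpenPosMeasure ∧
      Dense (MulAction.orbit SL(2, ℝ) (ι s)) ∧ ¬ Equidistributes (μ.map ι) (ι s) ∧
      IsMeagre {x | Equidistributes (μ.map ι) x} :=
  Bar.exists_ext S μ s h1 h2 h3

end Pool.Agent.Results.MP_3615e3_an.BarrierLift
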