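import Pool.Agent.Lib.MP_3615e3_an.Rigid

open MeasureTheory Filter Topology Set
open scoped MatrixGroups CompactlySupported
open Pool.Agent.Lib.MP_3615e3_an

namespace Pool.Agent.Results.MP_3615e3_an.HorocycleRigidity

theorem result {X : Type*} [TopologicalSpace X] [T2Space X] [LocallyCompactSpace X]
    [SecondCountableTopology X] [MeasurableSpace X] [BorelSpace X]
    [MulAction SL(2, ℝ) X] [ContinuousSMul SL(2, ℝ) X]
    (μ : Measure X) [IsProbabilityMeasure μ] [ErgodicSMul SL(2, ℝ) X μ] [μ.IsOpenPosMeasure]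
    (hSyn : ¬ IsMeagre {x : X | Syndetic μ x}) :
    List.TFAE
      [∀ x : X, Syndetic μ x → Equidistributes μ x,
       ∀ ν : Measure X, IsProbabilityMeasure ν →
         (∀ s : ℝ, MeasurePreserving (fun y : X => hor s • y) ν ν) → BackAccumulates μ ν → ν = μ,
       ∀ ν : Measure X, IsProbabilityMeasure ν →
         (∀ s : ℝ, MeasurePreserving (fun y : X => hor s • y) ν ν) → BiSyndetic μ ν → ν = μ] := by
  tfae_have 1 → 2 := fun h ν _ hν hb =>
    rigid_of_not_meagre μ (fun hm => hSyn (hm.mono fun x hx => h x hx)) ν hν hb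
  tfae_have 2 → 3 := fun h ν hp hν hb => h ν hp hν (back_of_bi μ hb)
  tfae_have 3 → 1 := fun h x hx => good_of_rigid μ h hx
  tfae_finish

end Pool.Agent.Results.MP_3615e3_an.HorocycleRigidity
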